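import Pool.Agent.LCK.Stmts

/-!
# MP_e0fe99_lc, squad LCK, row FPF: polynomial functions on a finite index set
-/

set_option autoImplicit false

open Topology

namespace Pool.Agent.LCK.H10

theorem fpf (hFCP : FCPStmt) (hPDN : PDNStmt) : FPFStmt := by
  intro σ _ f hf hx
  obtain ⟨p, hp⟩ := hf
  obtain ⟨x0, hx0⟩ := hx
  obtain ⟨e⟩ : Nonempty (σ ≃ Fin (Fintype.card σ)) := ⟨Fintype.equivFin σ⟩
  have hev : ∀ y : Fin (Fintype.card σ) → ℝ,
      MvPolynomial.eval y (MvPolynomial.rename e p) = f (y ∘ e) := by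
    intro y
    rw [MvPolynomial.eval_rename, hp]
  have hP : MvPolynomial.rename e p ≠ 0 := by
    intro h0
    apply hx0
    have h1 := hev (x0 ∘ e.symm)
    rw [h0, map_zero] at h1
    rw [h1]
    congr 1
    funext i
    simp
  have himg : {x : σ → ℝ | f x ≠ 0} = (fun y : Fin (Fintype.card σ) → ℝ => y ∘ e) ''
      {y | MvPolynomial.eval y (MvPolynomial.rename e p) ≠ 0} := by
    ext x
    constructor
    · intro h
      refine ⟨x ∘ e.symm, ?_, ?_⟩
      · show MvPolynomial.eval (x ∘ e.symm) (MvPolynomial.rename e p) ≠ 0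
        rw [hev]
        have h2 : (x ∘ e.symm) ∘ e = x := by
          funext i
          simp
        rw [h2]
        exact h
      · funext i
        simp
    · rintro ⟨y, hy, rfl⟩
      show f (y ∘ e) ≠ 0
      rw [← hev]
      exact hy
  have hcont : Continuous (fun y : Fin (Fintype.card σ) → ℝ => y ∘ e) :=
    continuous_pi fun i => continuous_apply (e i)
  have hsurj : Function.Surjective (fun y : Fin (Fintype.card σ) → ℝ => y ∘ e) := by
    intro x
    refine ⟨x ∘ e.symm, ?_⟩
    funext i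
    simp
  constructor
  · obtain ⟨F, hF, hFt, hFc⟩ := hFCP _ _ hP
    refine ⟨(Set.image (fun y : Fin (Fintype.card σ) → ℝ => y ∘ e)) '' F, hF.image _, ?_, ?_⟩
    · rintro _ ⟨t, ht, rfl⟩
      refine ⟨(hFt t ht).1.image _ hcont.continuousOn, ?_⟩
      rw [himg]
      exact Set.image_mono (hFt t ht).2
    · rw [himg]
      rintro _ ⟨y, hy, rfl⟩
      obtain ⟨t, ht, hyt⟩ := hFc hy
      exact ⟨_, ⟨t, ht, rfl⟩, y, hyt, rfl⟩
  · rw [himg]
    exact hsurj.denseRange.dense_image hcont (hPDN _ _ hP)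

end Pool.Agent.LCK.H10
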